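import Pool.Agent.Q46.UP.Data

/-! # A binary universal partial cycle of word length 12 and diamondicity 3 -/

namespace Pool.Agent.Q46.UP

/-- the partial word, read periodically -/
def uu (i : ℕ) : Option (Fin 2) :=
  if i % 4 = 0 then none else some (if LL.testBit (i % 512) then 1 else 0)

theorem uu_none {i : ℕ} : uu i = none ↔ i % 4 = 0 := by
  unfold uu; split_ifs with h <;> simp [h]

theorem uu_per (i : ℕ) : uu (i + 512) = uu i := by
  unfold uu
  have h1 : (i + 512) % 4 = i % 4 := by omega
  have h2 : (i + 512) % 512 = i % 512 := by omega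
  rw [h1, h2]

/-- `w` is covered by the window at `i` -/
def R (i : ℕ) (w : Fin 12 → Fin 2) : Prop :=
  ∀ j : Fin 12, uu (i + j) = none ∨ uu (i + j) = some (w j)

instance (i : ℕ) (w : Fin 12 → Fin 2) : Decidable (R i w) := by unfold R; infer_instance

theorem exists_cover (w : Fin 12 → Fin 2) : ∃ i < 512, R i w := by
  set c : ℕ := Nat.ofBits (fun j : Fin 12 => decide (w j = 1)) with hc
  have hlt : c < 4096 := by
    have := Nat.ofBits_lt_two_pow (fun j : Fin 12 => decide (w j = 1))
    rw [← hc] at this; simpa using this
  refine ⟨ix c, ?_, ?_⟩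
  · unfold ix; exact Nat.mod_lt _ (by norm_num)
  · intro j
    have hok := ok_of_chk chk_true hlt
    unfold ok at hok
    rw [List.all_eq_true] at hok
    have hj := hok j.val (List.mem_range.2 j.isLt)
    rw [Bool.or_eq_true] at hj
    by_cases h4 : (ix c + j) % 4 = 0
    · left; exact uu_none.2 h4
    · right
      have h5 : LL.testBit (ix c + j) = c.testBit j := by
        rcases hj with h | h
        · exact absurd (beq_iff_eq.1 h) h4
        · exact beq_iff_eq.1 h
      have hix : ix c < 512 := by unfold ix; exact Nat.mod_lt _ (by norm_num)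
      have hb : ix c + j < 523 := by have := j.isLt; omega
      have h6 : LL.testBit ((ix c + j) % 512) = c.testBit j := by
        rw [← per_of per_true hb]; exact h5
      have h7 : c.testBit j = decide (w j = 1) := by
        rw [hc, Nat.testBit_ofBits_lt _ _ j.isLt]
      unfold uu
      rw [if_neg h4, h6, h7]
      congr 1
      generalize w j = x
      fin_cases x <;> simp

theorem card_window (i : ℕ) :
    (Finset.univ.filter fun w : Fin 12 → Fin 2 => R i w).card = 8 := by
  have h1 : (Finset.univ.filter fun w : Fin 12 → Fin 2 => R i w) =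
      Fintype.piFinset (fun j : Fin 12 =>
        Finset.univ.filter fun x : Fin 2 => uu (i + j) = none ∨ uu (i + j) = some x) := by
    ext w
    simp only [Finset.mem_filter, Finset.mem_univ, true_and, Fintype.mem_piFinset, R]
  rw [h1, Fintype.card_piFinset]
  have h2 : ∀ j : Fin 12, (Finset.univ.filter fun x : Fin 2 =>
      uu (i + j) = none ∨ uu (i + j) = some x).card =
      if (i % 4 + j) % 4 = 0 then 2 else 1 := by
    intro j
    have h3 : (i % 4 + (j : ℕ)) % 4 = (i + j) % 4 := by omega
    rw [h3]
    unfold uu
    split_ifs with h4 h5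
    · simp
    · simp only [reduceCtorEq, Option.some.injEq, false_or]
      decide
    · simp only [reduceCtorEq, Option.some.injEq, false_or]
      decide
  rw [Finset.prod_congr rfl (fun j _ => h2 j)]
  have h4 : i % 4 < 4 := Nat.mod_lt _ (by norm_num)
  generalize i % 4 = r at h4
  interval_cases r <;> decide

theorem card_cover (w : Fin 12 → Fin 2) :
    (Finset.univ.filter fun i : Fin 512 => R i w).card = 1 := by
  have hge : ∀ w : Fin 12 → Fin 2, 1 ≤ (Finset.univ.filter fun i : Fin 512 => R i w).card := by
    intro w
    obtain ⟨i, hi, hR⟩ := exists_cover w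
    exact Finset.card_pos.2 ⟨⟨i, hi⟩, by simpa using hR⟩
  have hsum : ∑ w : Fin 12 → Fin 2, (Finset.univ.filter fun i : Fin 512 => R i w).card =
      ∑ w : Fin 12 → Fin 2, 1 := by
    have h1 : ∑ w : Fin 12 → Fin 2, (Finset.univ.filter fun i : Fin 512 => R i w).card =
        ∑ i : Fin 512, (Finset.univ.filter fun w : Fin 12 → Fin 2 => R i w).card := by
      simp only [Finset.card_filter]
      exact Finset.sum_comm
    rw [h1]
    simp only [card_window]
    simp
  have := (Finset.sum_eq_sum_iff_of_le (fun w _ => hge w)).1 hsum.symm w (Finset.mem_univ _)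
  exact this.symm

theorem unique_cover (w : Fin 12 → Fin 2) : ∃! i : Fin 512, R i w := by
  obtain ⟨a, ha⟩ := Finset.card_eq_one.1 (card_cover w)
  refine ⟨a, ?_, ?_⟩
  · have : a ∈ (Finset.univ.filter fun i : Fin 512 => R i w) := by rw [ha]; simp
    simpa using this
  · intro b hb
    have : b ∈ (Finset.univ.filter fun i : Fin 512 => R i w) := by simpa using hb
    rw [ha] at this; simpa using this

end Pool.Agent.Q46.UP
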